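import Pool.Agent.Helper33.Tree9

set_option autoImplicit false

namespace Pool.Agent.Results.MP_77f213_al.UnattainedOne

open Pool.Agent.Helper33.Tree Pool.Agent.Helper33.Tree.Tr

/-- Geodesic metric space: any two points are joined by an isometrically embedded segment. -/
def IsGeodesic (X : Type) [MetricSpace X] : Prop :=
  ∀ x y : X, ∃ γ : ℝ → X, γ 0 = x ∧ γ (dist x y) = y ∧
    ∀ s ∈ Set.Icc (0:ℝ) (dist x y), ∀ t ∈ Set.Icc (0:ℝ) (dist x y), dist (γ s) (γ t) = |s - t|

/-- Geometric action: `X` is a nonempty proper geodesic space and `G` acts on it isometrically,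
properly discontinuously and cocompactly. -/
def IsGeometric (G X : Type) [Group G] [MetricSpace X] [MulAction G X] : Prop :=
  Nonempty X ∧ ProperSpace X ∧ IsGeodesic X ∧ IsIsometricSMul G X ∧ ProperlyDiscontinuousSMul G X ∧
    ∃ K : Set X, IsCompact K ∧ ∀ x : X, ∃ g : G, g • x ∈ K

/-- Word length with respect to `S`. -/
noncomputable def wordNorm {G : Type} [Group G] (S : Finset G) (g : G) : ℕ :=
  sInf {n | ∃ l : List G, l.length = n ∧ (∀ x ∈ l, x ∈ S ∨ x⁻¹ ∈ S) ∧ l.prod = g}

/-- Gromov product of `x` and `y` at `w` in the word metric of `S`. -/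
noncomputable def wordProd {G : Type} [Group G] (S : Finset G) (w x y : G) : ℝ :=
  ((wordNorm S (w⁻¹ * x) : ℝ) + wordNorm S (w⁻¹ * y) - wordNorm S (x⁻¹ * y)) / 2

/-- Hyperbolic group: finitely generated, and some word metric satisfies Gromov's four point
condition. -/
def IsHyperbolicGroup (G : Type) [Group G] : Prop :=
  ∃ S : Finset G, Subgroup.closure (S : Set G) = ⊤ ∧ ∃ δ : ℝ, ∀ x y z w : G,
    min (wordProd S w x y) (wordProd S w y z) - δ ≤ wordProd S w x z

/-- `(L, C)`-quasi-isometry. -/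
def IsQI {X₀ X₁ : Type} [MetricSpace X₀] [MetricSpace X₁] (L C : ℝ) (f : X₀ → X₁) : Prop :=
  (∀ x y : X₀, dist x y / L - C ≤ dist (f x) (f y) ∧ dist (f x) (f y) ≤ L * dist x y + C) ∧
    ∀ z : X₁, ∃ x : X₀, dist (f x) z ≤ C

/-- The optimal multiplicative constant `λ*(X₀, X₁)`. -/
noncomputable def lamStar (X₀ X₁ : Type) [MetricSpace X₀] [MetricSpace X₁] : ℝ :=
  sInf {L : ℝ | 1 ≤ L ∧ ∃ f : X₀ → X₁, ∃ C : ℝ, 0 ≤ C ∧ IsQI L C f}

section hyp

/-- the three generators, as elements of the group -/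
noncomputable def gens : Fin 3 → G L3 L2 := fun i => ⟨gen L3 L2 i, gen_mem L3 L2 i⟩

open Classical in
/-- the generating set -/
noncomputable def S3 : Finset (G L3 L2) := Finset.univ.image gens

lemma gens_inv (i : Fin 3) : (gens i)⁻¹ = gens i := by
  apply inv_eq_of_mul_eq_one_right
  exact Subtype.ext (gen_mul_self L3 L2 i)

lemma gens_mem (i : Fin 3) : gens i ∈ S3 := by
  classical
  exact Finset.mem_image_of_mem _ (Finset.mem_univ i)

lemma mem_S3 {x : G L3 L2} (h : x ∈ S3 ∨ x⁻¹ ∈ S3) : ∃ i, x = gens i := by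
  classical
  rcases h with h | h
  · obtain ⟨i, _, hi⟩ := Finset.mem_image.1 h
    exact ⟨i, hi.symm⟩
  · obtain ⟨i, _, hi⟩ := Finset.mem_image.1 h
    exact ⟨i, by rw [← gens_inv, hi, inv_inv]⟩

lemma gprod_eq (w : List (Fin 3)) : ((w.map gens).prod : G L3 L2).1 = gprod L3 L2 w := by
  induction w with
  | nil => rfl
  | cons i w ih => rw [List.map_cons, List.prod_cons, gprod_cons, ← ih]; rfl

lemma closure_S3 : Subgroup.closure (S3 : Set (G L3 L2)) = ⊤ := by
  rw [eq_top_iff]
  intro g _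
  obtain ⟨w, _, hw⟩ := exists_red L3 L2 g.1 g.2
  have h1 : g = (w.map gens).prod := Subtype.ext (by rw [gprod_eq, hw])
  rw [h1]
  apply Subgroup.list_prod_mem
  intro x hx
  obtain ⟨i, _, rfl⟩ := List.mem_map.1 hx
  exact Subgroup.subset_closure (gens_mem i)

/-- the word length is the displacement of the root in the 3-regular tree, in edges -/
lemma wordNorm_eq (g : G L3 L2) :
    (wordNorm S3 g : ℝ) = d (g • root 3 L2) (root 3 L2) := by
  obtain ⟨w, hwr, hw⟩ := exists_red L3 L2 g.1 g.2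
  have h1 : g = (w.map gens).prod := Subtype.ext (by rw [gprod_eq, hw])
  have h2 : IsV (g • root 3 L2) w := by
    have := track3 L3 L2 w hwr
    rw [← hw] at this; exact this
  have h3 : d (g • root 3 L2) (root 3 L2) = w.length := by rw [d_comm, d_root, h2.2]
  rw [h3]
  have h4 : wordNorm S3 g = w.length := by
    apply le_antisymm
    · apply Nat.sInf_le
      refine ⟨w.map gens, by simp, ?_, h1.symm⟩
      intro x hx
      obtain ⟨i, _, rfl⟩ := List.mem_map.1 hx
      exact Or.inl (gens_mem i)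
    · have hne : {n | ∃ l : List (G L3 L2), l.length = n ∧ (∀ x ∈ l, x ∈ S3 ∨ x⁻¹ ∈ S3) ∧
          l.prod = g}.Nonempty := by
        refine ⟨w.length, w.map gens, by simp, ?_, h1.symm⟩
        intro x hx
        obtain ⟨i, _, rfl⟩ := List.mem_map.1 hx
        exact Or.inl (gens_mem i)
      apply le_csInf hne
      rintro n ⟨l, hl, hlS, hlg⟩
      have key : ∀ l : List (G L3 L2), (∀ x ∈ l, x ∈ S3 ∨ x⁻¹ ∈ S3) →
          d (l.prod • root 3 L2) (root 3 L2) ≤ l.length := by
        intro l
        induction l with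
        | nil => intro _; rw [List.prod_nil, one_smul, d_self]; simp
        | cons x l ih =>
          intro hx
          obtain ⟨i, hi⟩ := mem_S3 (hx x (by simp))
          have e1 := ih (fun y hy => hx y (by simp [hy]))
          have e2 : (x :: l).prod • root 3 L2 = mv i (l.prod • root 3 L2) := by
            rw [List.prod_cons, mul_smul, hi]
            exact gen_snd L3 L2 i _
          rw [e2, List.length_cons]
          have e3 := d_triangle (mv i (l.prod • root 3 L2)) (mv i (root 3 L2)) (root 3 L2)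
          have e4 : d (mv i (root 3 L2)) (root 3 L2) = 1 := by
            have := isV_mv_out (a := i) (isV_root (n := 3) (ℓ := L2)) (by simp)
            rw [d_comm, d_root, this.2]; simp
          rw [d_mv, e4] at e3
          push_cast; linarith
      have e5 := key l hlS
      rw [hlg, h3, hl] at e5
      exact_mod_cast e5
  rw [h4]

lemma wordNorm_inv_mul (g h : G L3 L2) :
    (wordNorm S3 (g⁻¹ * h) : ℝ) = d (g • root 3 L2) (h • root 3 L2) := by
  rw [wordNorm_eq, mul_smul]
  have h1 : dist (g⁻¹ • h • root 3 L2) (root 3 L2) = dist (h • root 3 L2) (g • root 3 L2) := by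
    rw [← dist_smul g, smul_inv_smul]
  rw [dist_def, dist_def] at h1
  rw [d_comm (g • root 3 L2)]
  exact mul_left_cancel₀ L2.2.ne' h1

lemma hyperbolicGroup : IsHyperbolicGroup (G L3 L2) := by
  refine ⟨S3, closure_S3, 0, fun x y z w => ?_⟩
  have h := hyperbolic (x • root 3 L2) (y • root 3 L2) (z • root 3 L2) (w • root 3 L2)
  simp only [dist_def] at h
  unfold wordProd
  simp only [wordNorm_inv_mul]
  have hp := L2.2
  have e1 : ∀ a b c : ℝ, (L2.1 * a + L2.1 * b - L2.1 * c) / 2 = L2.1 * ((a + b - c) / 2) := by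
    intro a b c; ring
  rw [e1, e1, e1, ← mul_min_of_nonneg _ _ hp.le, sub_zero] at h
  have h' := le_of_mul_le_mul_left h hp
  rw [sub_zero]
  rw [d_comm (w • root 3 L2) (x • root 3 L2), d_comm (w • root 3 L2) (y • root 3 L2),
    d_comm (w • root 3 L2) (z • root 3 L2)]
  exact h'

end hyp

lemma lamStar_eq : lamStar (Tr 4 L3) (Tr 3 L2) = 1 := by
  unfold lamStar
  apply le_antisymm
  · apply le_of_forall_gt_imp_ge_of_dense
    intro L hL
    apply csInf_le ⟨1, fun x hx => hx.1⟩
    obtain ⟨f, c, h1, h2⟩ := claimA L hL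
    refine ⟨hL.le, f, c, ?_, h1, h2⟩
    obtain ⟨x, hx⟩ := h2 (root 3 L2)
    exact dist_nonneg.trans hx
  · obtain ⟨f, c, h1, h2⟩ := claimA 2 (by norm_num)
    apply le_csInf
    · obtain ⟨x, hx⟩ := h2 (root 3 L2)
      exact ⟨2, by norm_num, f, c, dist_nonneg.trans hx, h1, h2⟩
    · exact fun x hx => hx.1

/-- There are a hyperbolic group `G` and geometric `G`-actions on `X₀`, `X₁` with
`λ*(X₀, X₁) = 1` but without any `(1, C)`-quasi-isometry `X₀ → X₁`. -/
theorem result : ∃ (G X₀ X₁ : Type) (_ : Group G) (_ : MetricSpace X₀) (_ : MetricSpace X₁)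
    (_ : MulAction G X₀) (_ : MulAction G X₁),
    IsHyperbolicGroup G ∧ IsGeometric G X₀ ∧ IsGeometric G X₁ ∧ lamStar X₀ X₁ = 1 ∧
      ¬ ∃ (f : X₀ → X₁) (C : ℝ), 0 ≤ C ∧ IsQI 1 C f := by
  refine ⟨G L3 L2, Tr 4 L3, Tr 3 L2, inferInstance, inferInstance, inferInstance, inferInstance,
    inferInstance, hyperbolicGroup,
    ⟨⟨root _ _⟩, inferInstance, geodesic, inferInstance, inferInstance, cocompact4 _ _⟩,
    ⟨⟨root _ _⟩, inferInstance, geodesic, inferInstance, inferInstance, cocompact3 _ _⟩,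
    lamStar_eq, ?_⟩
  rintro ⟨f, C, _, hf, _⟩
  apply no_rough_isometry f C
  intro x y
  have := hf x y
  rwa [div_one, one_mul] at this

end Pool.Agent.Results.MP_77f213_al.UnattainedOne
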